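import Pool.Agent.Work.MP_d8b5e2_gt.Embed

set_option autoImplicit false

namespace Pool.Agent.Results.MP_d8b5e2_gt.CpEmbedding

/-- Let X be a sigma-compact Delta-space and Y a Tychonoff space. If a dense subspace E of C_p(Y)
embeds topologically into C_p(X), then Y is a Delta-space. Here C_p is the subtype of continuous
functions of the product space. -/
theorem result :
    ∀ (X Y : Type) [TopologicalSpace X] [TopologicalSpace Y] [SigmaCompactSpace X] [T35Space Y]
      (E : Set {f : Y → ℝ // Continuous f}), Dense E →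
      ∀ j : E → {φ : X → ℝ // Continuous φ}, Topology.IsEmbedding j →
      (∀ D : ℕ → Set X, Antitone D → (⋂ n, D n) = ∅ →
        ∃ V : ℕ → Set X, Antitone V ∧ (∀ n, IsOpen (V n)) ∧ (∀ n, D n ⊆ V n) ∧
          (⋂ n, V n) = ∅) →
      (∀ D : ℕ → Set Y, Antitone D → (⋂ n, D n) = ∅ →
        ∃ V : ℕ → Set Y, Antitone V ∧ (∀ n, IsOpen (V n)) ∧ (∀ n, D n ⊆ V n) ∧
          (⋂ n, V n) = ∅) := by
  intro X Y _ _ _ _ E hE j hj hX
  exact Pool.Agent.Work.MP_d8b5e2_gt.isDelta_of_embedding E hE j hj hX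

end Pool.Agent.Results.MP_d8b5e2_gt.CpEmbedding
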