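import Pool.Agent.Work.MP_d8b5e2_gt.Retract

set_option autoImplicit false

namespace Pool.Agent.Results.MP_d8b5e2_gt.CpRetract

/-- Let X be a completely regular Delta-space and Y a Tychonoff space. If a continuous map T from
C_p(X) to C_p(Y) has a continuous section over a dense subspace E of C_p(Y), in particular if
C_p(X) and C_p(Y) are homeomorphic, then Y is a Delta-space. -/
theorem result :
    ∀ (X Y : Type) [TopologicalSpace X] [TopologicalSpace Y] [CompletelyRegularSpace X]
      [T35Space Y] (T : {φ : X → ℝ // Continuous φ} → {f : Y → ℝ // Continuous f}),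
      Continuous T → ∀ E : Set {f : Y → ℝ // Continuous f}, Dense E →
      ∀ j : E → {φ : X → ℝ // Continuous φ}, Continuous j → (∀ f : E, T (j f) = f.1) →
      (∀ D : ℕ → Set X, Antitone D → (⋂ n, D n) = ∅ →
        ∃ V : ℕ → Set X, Antitone V ∧ (∀ n, IsOpen (V n)) ∧ (∀ n, D n ⊆ V n) ∧
          (⋂ n, V n) = ∅) →
      (∀ D : ℕ → Set Y, Antitone D → (⋂ n, D n) = ∅ →
        ∃ V : ℕ → Set Y, Antitone V ∧ (∀ n, IsOpen (V n)) ∧ (∀ n, D n ⊆ V n) ∧
          (⋂ n, V n) = ∅) := by
  intro X Y _ _ _ _ T hT E hE j hj hTj hX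
  exact Pool.Agent.Work.MP_d8b5e2_gt.isDelta_of_section T hT E hE j hj hTj hX

end Pool.Agent.Results.MP_d8b5e2_gt.CpRetract
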