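import Pool.Agent.Work.MP_d8b5e2_gt.Linear

set_option autoImplicit false

namespace Pool.Agent.Results.MP_d8b5e2_gt.LinearSubquotient

/-- Let X be a sigma-compact Delta-space, Y a Tychonoff space, A a linear subspace of C_p(X) and T
a continuous linear map from A to C_p(Y) with dense range. Then Y is a Delta-space. -/
theorem result :
    ∀ (X Y : Type) [TopologicalSpace X] [TopologicalSpace Y] [SigmaCompactSpace X] [T35Space Y]
      (A : Submodule ℝ (X → ℝ)), (∀ φ ∈ A, Continuous φ) →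
      ∀ T : A →L[ℝ] (Y → ℝ), (∀ φ, Continuous (T φ)) →
      (∀ f : Y → ℝ, Continuous f → f ∈ closure (Set.range T)) →
      (∀ D : ℕ → Set X, Antitone D → (⋂ n, D n) = ∅ →
        ∃ V : ℕ → Set X, Antitone V ∧ (∀ n, IsOpen (V n)) ∧ (∀ n, D n ⊆ V n) ∧
          (⋂ n, V n) = ∅) →
      (∀ D : ℕ → Set Y, Antitone D → (⋂ n, D n) = ∅ →
        ∃ V : ℕ → Set Y, Antitone V ∧ (∀ n, IsOpen (V n)) ∧ (∀ n, D n ⊆ V n) ∧
          (⋂ n, V n) = ∅) := by
  intro X Y _ _ _ _ A hA T hT hd hX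
  exact Pool.Agent.Work.MP_d8b5e2_gt.isDelta_of_linear A hA T hT hd hX

end Pool.Agent.Results.MP_d8b5e2_gt.LinearSubquotient
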